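import Pool.Agent.Helper78.LK.Goals

set_option autoImplicit false

namespace Pool.Agent.Helper51.LK

open Pool.Agent.Helper50.KP Pool.Agent.Helper78.LK

theorem c1 (D : Dat) (W : DW) : crossings (und W) = nfree D W + nfix D W := by
  induction W with
  | nil => rfl
  | cons e W ih =>
    obtain ⟨K, i, x⟩ := e
    have h1 : crossings (und ((K, i, x) :: W)) = crossings (und W) + if isX K = true then 1 else 0 := by
      cases K <;> simp [crossings, und, isX]
    have h2 : nfree D ((K, i, x) :: W) = nfree D W + if (isX K && D.fr x) = true then 1 else 0 := by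
      simp only [nfree, List.countP_cons]
    have h3 : nfix D ((K, i, x) :: W) = nfix D W + if (isX K && !D.fr x) = true then 1 else 0 := by
      simp only [nfix, List.countP_cons]
    rw [h1, h2, h3, ih]
    cases isX K <;> cases D.fr x <;> simp <;> omega

theorem abs_sg (b : Bool) : |sg b| = 1 := by cases b <;> simp [sg]

theorem ch_le (D : Dat) (hg : ∀ l l', |D.g l l'| ≤ 1) (s : Bool) (a b : Lb) : ch D s a b ≤ 1 := by
  refine (le_abs_self _).trans ?_
  unfold ch
  rw [abs_mul, abs_mul, abs_mul, abs_sg, abs_sg, abs_sg, mul_one, mul_one, mul_one]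
  split <;> apply hg

theorem pc_le (D : Dat) (hg : ∀ l l', |D.g l l'| ≤ 1) {K : Kind} {x : ℕ} {S S' : List Lb} {p : ℤ}
    (h : Pc D K x S S' p) : p ≤ if (isX K && D.fr x) = true then 1 else 0 := by
  cases h with
  | cup => simp [isX]
  | cap => simp [isX]
  | free s x a b hf =>
    simp only [isX, hf, Bool.and_self, if_true]
    exact ch_le D hg s a b
  | fix s x d e hf => simp [isX, hf]

theorem c2 (D : Dat) (hg : ∀ l l', |D.g l l'| ≤ 1) {W : DW} {A B : List Lb} {q : ℤ}
    (h : Run D W A B q) : q ≤ nfree D W := by
  induction h with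
  | nil L => simp [nfree]
  | @cons K k x W A B S S' L p q hl hp hr ih =>
    have h2 : nfree D ((K, k, x) :: W) = nfree D W + if (isX K && D.fr x) = true then 1 else 0 := by
      simp only [nfree, List.countP_cons]
    have h3 := pc_le D hg hp
    rw [h2]
    push_cast
    linarith

theorem fixpl (D : Dat) {L R : DW} (h : DPl L R) : nfix D L = nfix D R := by
  cases h with
  | zig => simp [nfix, isX]
  | zag => simp [nfix, isX]
  | pcap => simp [nfix, isX, List.countP_cons]
  | pcup => simp [nfix, isX, List.countP_cons]
  | comm => simp [nfix, List.countP_cons, add_comm]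

theorem fixz (D : Dat) {L : DW} (h : ∀ e ∈ L, isX e.1 = true → D.fr e.2.2 = true) :
    nfix D L = 0 := by
  unfold nfix
  rw [List.countP_eq_zero]
  intro e he hc
  rw [Bool.and_eq_true] at hc
  rw [h e he hc.1] at hc
  simp at hc

theorem gCNT : CNT := by
  refine ⟨c1, fun D W A B q hg h => c2 D hg h, ?_⟩
  rintro D T W W' hT ⟨-, -, U, V, L, R, h, rfl, rfl⟩
  have key : nfix D L = nfix D R := by
    rcases h with h | h | ⟨-, h⟩
    · exact fixpl D h
    · exact (fixpl D h).symm
    · rw [fixz D (L := L) (fun e he hx => hT _ (h e (List.mem_append_left _ he) hx)),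
        fixz D (L := R) (fun e he hx => hT _ (h e (List.mem_append_right _ he) hx))]
  have e : ∀ M : DW, nfix D (U ++ M ++ V) = nfix D U + nfix D M + nfix D V := by
    intro M
    unfold nfix
    rw [List.countP_append, List.countP_append]
  rw [e, e, key]

end Pool.Agent.Helper51.LK
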